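import Pool.Agent.N496.LT.Stm

/-!
# Project LT: the cosets of the subgroup `N` of `Γ` in `W G`
-/

set_option autoImplicit false

open scoped Matrix

noncomputable section

namespace Pool.Agent.U331.LT

open Module Pool.Agent.W907.SG Pool.Agent.W461.SGN Pool.Agent.W397.SG Pool.Agent.N496.LT
open Pool.Agent.Y132.SI (aa ev ev_mk ev_mul ev_one aa_mk aa_inv aa_comm ET_dim')

section cosets

variable {V : Type} [Fintype V] [LinearOrder V] (G : SimpleGraph V) (N : Subgroup (th G).ker)

omit [Fintype V] [LinearOrder V] in
theorem mem_HH (g : (th G).ker) : (g : W G) ∈ N.map (th G).ker.subtype ↔ g ∈ N := by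
  constructor
  · rintro ⟨h, hh, e⟩
    have : h = g := Subtype.ext e
    exact this ▸ hh
  · intro h
    exact ⟨g, h, rfl⟩

omit [Fintype V] [LinearOrder V] in
theorem HH_le : N.map (th G).ker.subtype ≤ (th G).ker := by
  rintro _ ⟨h, _, rfl⟩
  exact h.2

/-- the right cosets -/
abbrev XX : Type := Quotient (QuotientGroup.rightRel (N.map (th G).ker.subtype))

variable [hN : N.Normal]

/-- the coset of `g * rep A` -/
def cls (q : (th G).ker ⧸ N) (A : Finset V) : XX G N :=
  Quotient.liftOn' q (fun g => (Quotient.mk'' ((g : W G) * rep G A) : XX G N)) (by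
    intro a b hab
    rw [QuotientGroup.leftRel_apply] at hab
    refine Quotient.sound' ?_
    rw [QuotientGroup.rightRel_apply, mul_inv_rev, mul_assoc, mul_inv_cancel_left]
    have h1 : a * (a⁻¹ * b) * a⁻¹ ∈ N := hN.conj_mem _ hab a
    rw [mul_inv_cancel_left] at h1
    exact (mem_HH G N (b * a⁻¹)).2 h1)

theorem cls_mk (g : (th G).ker) (A : Finset V) :
    cls G N (QuotientGroup.mk g) A = Quotient.mk'' ((g : W G) * rep G A) := rfl

theorem par_rep (A : Finset V) : par G (rep G A) = A := by
  ext v
  rw [mem_par, th_rep]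
  by_cases h : v ∈ A
  · simp [h]
  · simp only [h, if_false, iff_false]
    decide

theorem cls_inj (q q' : (th G).ker ⧸ N) (A A' : Finset V) (h : cls G N q A = cls G N q' A') :
    q = q' ∧ A = A' := by
  induction q using QuotientGroup.induction_on with
  | H a =>
    induction q' using QuotientGroup.induction_on with
    | H b =>
      rw [cls_mk, cls_mk] at h
      have h1 := Quotient.exact' h
      rw [QuotientGroup.rightRel_apply] at h1
      have h2 := HH_le G N h1
      rw [MonoidHom.mem_ker, map_mul, map_inv, mul_inv_eq_one, map_mul, map_mul] at h2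
      have ha : th G (a : W G) = 1 := a.2
      have hb : th G (b : W G) = 1 := b.2
      rw [ha, hb, one_mul, one_mul] at h2
      have h3 : A = A' := by
        rw [← par_rep G A, ← par_rep G A']
        unfold par
        rw [h2]
      subst h3
      refine ⟨?_, rfl⟩
      rw [mul_inv_rev, mul_assoc, mul_inv_cancel_left] at h1
      have h4 : b * a⁻¹ ∈ N := (mem_HH G N (b * a⁻¹)).1 h1
      rw [QuotientGroup.eq]
      have h5 := hN.conj_mem _ h4 a⁻¹
      rw [inv_inv, mul_assoc, mul_assoc, inv_mul_cancel, mul_one] at h5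
      exact h5

theorem cls_surj (x : XX G N) : ∃ q A, cls G N q A = x := by
  induction x using Quotient.inductionOn' with
  | h w =>
    refine ⟨QuotientGroup.mk (gm G w), par G w, ?_⟩
    rw [cls_mk]
    show (Quotient.mk'' (w * (rep G (par G w))⁻¹ * rep G (par G w)) : XX G N) = _
    rw [inv_mul_cancel_right]

/-- crossing a wall -/
theorem aa_cls (q : (th G).ker ⧸ N) (A : Finset V) (t : V) (ht : t ∉ A) :
    aa G (N.map (th G).ker.subtype) t (cls G N q A) =
      cls G N (q * QuotientGroup.mk (gm G (rep G A * (cox G).simple t))) (insert t A) := by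
  induction q using QuotientGroup.induction_on with
  | H g =>
    rw [← QuotientGroup.mk_mul, cls_mk, cls_mk, aa_mk, Subgroup.coe_mul, gm_val G A t ht]
    congr 1
    group

theorem aa_cls' (q : (th G).ker ⧸ N) (A : Finset V) (t : V) (ht : t ∈ A) :
    cls G N q A = aa G (N.map (th G).ker.subtype) t (cls G N (q *
      (QuotientGroup.mk (gm G (rep G (A.erase t) * (cox G).simple t)))⁻¹) (A.erase t)) := by
  rw [aa_cls G N _ _ t (Finset.notMem_erase t A), Finset.insert_erase ht, inv_mul_cancel_right]

/-- the bijection -/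
def clsE : (((th G).ker ⧸ N) × Finset V) ≃ XX G N :=
  Equiv.ofBijective (fun p => cls G N p.1 p.2) ⟨fun p p' h => by
    obtain ⟨h1, h2⟩ := cls_inj G N _ _ _ _ h
    exact Prod.ext h1 h2, fun x => by
    obtain ⟨q, A, h⟩ := cls_surj G N x
    exact ⟨(q, A), h⟩⟩

/-- the sign of a coset -/
def sgn (t : V) (x : XX G N) : Bool :=
  Quotient.liftOn' x (fun w => decide (t ∈ par G w)) (by
    intro a b hab
    rw [QuotientGroup.rightRel_apply] at hab
    have h2 := HH_le G N hab
    rw [MonoidHom.mem_ker, map_mul, map_inv, mul_inv_eq_one] at h2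
    unfold par
    rw [h2])

omit hN in
theorem sgn_self (t : V) (x : XX G N) :
    sgn G N t (aa G (N.map (th G).ker.subtype) t x) = !(sgn G N t x) := by
  induction x using Quotient.inductionOn' with
  | h w =>
    rw [aa_mk]
    show decide (t ∈ par G _) = !(decide (t ∈ par G w))
    have h1 : t ∈ par G (w * (cox G).simple t) ↔ ¬ t ∈ par G w := by
      rw [mem_par, mem_par, th_self]
      rcases Int.units_eq_one_or (th G w t) with h | h
      · rw [h]; simp
      · rw [h]; simp
    by_cases h : t ∈ par G w
    · simp [h1, h]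
    · simp [h1, h]

omit hN in
theorem sgn_other (u t : V) (hut : u ≠ t) (x : XX G N) :
    sgn G N u (aa G (N.map (th G).ker.subtype) t x) = sgn G N u x := by
  induction x using Quotient.inductionOn' with
  | h w =>
    rw [aa_mk]
    show decide (u ∈ par G _) = decide (u ∈ par G w)
    have h1 : u ∈ par G (w * (cox G).simple t) ↔ u ∈ par G w := by
      rw [mem_par, mem_par, th_other G w u t hut]
    simp [h1]

end cosets

end Pool.Agent.U331.LT
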