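import Pool.Agent.U331.LT.P4B1

/-!
# Project LT: comparison of the boundary maps
-/

set_option autoImplicit false

open scoped Matrix

noncomputable section

namespace Pool.Agent.U331.LT

open Module Pool.Agent.W907.SG Pool.Agent.W461.SGN Pool.Agent.W397.SG Pool.Agent.N496.LT
open Pool.Agent.Y132.SI (aa ev ev_mk ev_mul ev_one aa_mk aa_inv aa_comm ET_dim')

section bdry

variable {V : Type} [Fintype V] [LinearOrder V] (G : SimpleGraph V) (N : Subgroup (th G).ker) [hN : N.Normal]
  (F : Type) [Field F]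

/-- the quotient complex -/
abbrev CC : GCx ((th G).ker ⧸ N) := (davis G).quot N

/-- the values at the corners -/
def Phi : (Finset V → XX G N → F) →ₗ[F] ((CC G N).ι × ((th G).ker ⧸ N) → F) where
  toFun c x := c x.1.1.1 (cls G N x.2 x.1.1.2)
  map_add' _ _ := rfl
  map_smul' _ _ := rfl

theorem Phi_apply (c : Finset V → XX G N → F) (x : (CC G N).ι × ((th G).ker ⧸ N)) :
    Phi G N F c x = c x.1.1.1 (cls G N x.2 x.1.1.2) := rfl

/-- the coefficient functional -/
def tht (h : (th G).ker ⧸ N) : MonoidAlgebra ℤ (th G).ker →+ F where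
  toFun z := (((MonoidAlgebra.mapDomainRingHom ℤ (QuotientGroup.mk' N) z).coeff h : ℤ) : F)
  map_zero' := by
    rw [map_zero, MonoidAlgebra.coeff_zero, Finsupp.coe_zero, Pi.zero_apply, Int.cast_zero]
  map_add' a b := by
    rw [map_add, MonoidAlgebra.coeff_add, Finsupp.add_apply, Int.cast_add]

open Classical in
theorem tht_single (h : (th G).ker ⧸ N) (g : (th G).ker) :
    tht G N F h (MonoidAlgebra.single g 1) = if h = QuotientGroup.mk g then 1 else 0 := by
  show (((MonoidAlgebra.mapDomainRingHom ℤ (QuotientGroup.mk' N) (MonoidAlgebra.single g 1)).coeff h : ℤ) : F) = _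
  rw [MonoidAlgebra.mapDomainRingHom_apply, MonoidAlgebra.mapDomain_single, MonoidAlgebra.coeff_single,
    Finsupp.single_apply]
  by_cases e : h = QuotientGroup.mk g
  · rw [if_pos e, if_pos (show (QuotientGroup.mk' N) g = h from e.symm), Int.cast_one]
  · rw [if_neg e, if_neg (show ¬ (QuotientGroup.mk' N) g = h from fun e' => e e'.symm), Int.cast_zero]

open Classical in
theorem tht_one (h : (th G).ker ⧸ N) : tht G N F h 1 = if h = 1 then 1 else 0 :=
  tht_single G N F h 1

theorem tht_int (h : (th G).ker ⧸ N) (n : ℤ) (z : MonoidAlgebra ℤ (th G).ker) :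
    tht G N F h ((n : MonoidAlgebra ℤ (th G).ker) * z) = (n : F) * tht G N F h z := by
  rw [← zsmul_eq_mul, map_zsmul, zsmul_eq_mul]

open Classical in
/-- one term of a matrix entry -/
def EE0 (t : V) (x y : (CC G N).ι × ((th G).ker ⧸ N)) : F :=
  ((sg t (x.1.1.1.erase t) : ℤ) : F) *
        ((if y.1.1.2 = x.1.1.2 then (if x.2⁻¹ * y.2 = 1 then 1 else 0) else 0) -
         (if y.1.1.2 = insert t x.1.1.2 then
          (if x.2⁻¹ * y.2 = QuotientGroup.mk (gm G (rep G x.1.1.2 * (cox G).simple t)) then 1 else 0) else 0))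

/-- the matrix entries -/
theorem mat_apply (x y : (CC G N).ι × ((th G).ker ⧸ N)) :
    (CC G N).mat F x y = ∑ t ∈ x.1.1.1, if y.1.1.1 = x.1.1.1.erase t then EE0 G N F t x y else 0 := by
  classical
  show tht G N F (x.2⁻¹ * y.2) (∑ t ∈ x.1.1.1,
    if y.1.1.1 = x.1.1.1.erase t then
    ((sg t (x.1.1.1.erase t) : ℤ) : MonoidAlgebra ℤ (th G).ker) *
      ((if y.1.1.2 = x.1.1.2 then 1 else 0) - (if y.1.1.2 = insert t x.1.1.2 then
        MonoidAlgebra.single (gm G (rep G x.1.1.2 * (cox G).simple t)) 1 else 0)) else 0) = _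
  rw [map_sum]
  refine Finset.sum_congr rfl fun t _ => ?_
  by_cases h1 : y.1.1.1 = x.1.1.1.erase t
  · rw [if_pos h1, if_pos h1, tht_int, map_sub, EE0]
    congr 1
    congr 1
    · by_cases h2 : y.1.1.2 = x.1.1.2
      · rw [if_pos h2, if_pos h2, tht_one]
      · rw [if_neg h2, if_neg h2, map_zero]
    · by_cases h2 : y.1.1.2 = insert t x.1.1.2
      · rw [if_pos h2, if_pos h2, tht_single]
      · rw [if_neg h2, if_neg h2, map_zero]
  · rw [if_neg h1, if_neg h1, map_zero]

omit [Fintype V] in
theorem insert_iff (S T : Finset V) (t : V) : (t ∈ S ∧ T = S.erase t) ↔ (t ∉ T ∧ S = insert t T) := by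
  constructor
  · rintro ⟨h, rfl⟩
    exact ⟨Finset.notMem_erase t S, (Finset.insert_erase h).symm⟩
  · rintro ⟨h, rfl⟩
    exact ⟨Finset.mem_insert_self t T, (Finset.erase_insert h).symm⟩

theorem swap_sum (S T : Finset V) (Z : V → F) :
    (∑ t ∈ S, if T = S.erase t then Z t else 0) = ∑ t ∈ Tᶜ, if S = insert t T then Z t else 0 := by
  classical
  rw [← Finset.sum_filter, ← Finset.sum_filter]
  refine Finset.sum_congr ?_ fun _ _ => rfl
  ext t
  rw [Finset.mem_filter, Finset.mem_filter, Finset.mem_compl]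
  exact insert_iff S T t

open Classical in
/-- the terms for a fixed `t` -/
theorem term [Fintype ((th G).ker ⧸ N)] (n : ℕ) (c : Finset V → XX G N → F)
    (hc : c ∈ KK G (pull F (aa G (N.map (th G).ker.subtype))) Set.univ ∅ n)
    (y : (CC G N).ι × ((th G).ker ⧸ N)) (t : V) (ht : t ∉ y.1.1.1) :
    ∑ x : (CC G N).ι × ((th G).ker ⧸ N), (if x.1.1.1 = insert t y.1.1.1 then Phi G N F c x * EE0 G N F t x y else 0) =
      ((sg t y.1.1.1 : ℤ) : F) * c (insert t y.1.1.1) (cls G N y.2 y.1.1.2) := by
  have hE : ∀ x : (CC G N).ι × ((th G).ker ⧸ N), x.1.1.1 = insert t y.1.1.1 → EE0 G N F t x y =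
      ((sg t y.1.1.1 : ℤ) : F) *
        ((if y.1.1.2 = x.1.1.2 then (if x.2⁻¹ * y.2 = 1 then 1 else 0) else 0) -
         (if y.1.1.2 = insert t x.1.1.2 then
          (if x.2⁻¹ * y.2 = QuotientGroup.mk (gm G (rep G x.1.1.2 * (cox G).simple t)) then 1 else 0) else 0)) := by
    intro x hx
    unfold EE0
    rw [hx, Finset.erase_insert ht]
  by_cases hcl : G.IsClique ((insert t y.1.1.1 : Finset V) : Set V)
  · have hy : Disjoint y.1.1.1 y.1.1.2 := y.1.2.2
    by_cases htA : t ∈ y.1.1.2
    · have hd : Disjoint (insert t y.1.1.1) (y.1.1.2.erase t) := by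
        rw [Finset.disjoint_insert_left]
        exact ⟨Finset.notMem_erase t _, Finset.disjoint_of_subset_right (Finset.erase_subset t _) hy⟩
      obtain ⟨q0, hq0⟩ : ∃ q0 : (th G).ker ⧸ N, q0 = y.2 *
        (QuotientGroup.mk (gm G (rep G (y.1.1.2.erase t) * (cox G).simple t)))⁻¹ := ⟨_, rfl⟩
      obtain ⟨x0, hx0⟩ : ∃ x0 : (CC G N).ι × ((th G).ker ⧸ N),
        x0 = (⟨(insert t y.1.1.1, y.1.1.2.erase t), hcl, hd⟩, q0) := ⟨_, rfl⟩
      rw [Finset.sum_eq_single x0]
      · have e1 : x0.1.1.1 = insert t y.1.1.1 := by rw [hx0]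
        have e2 : x0.1.1.2 = y.1.1.2.erase t := by rw [hx0]
        have e3 : x0.2 = q0 := by rw [hx0]
        rw [if_pos e1, hE x0 e1, Phi_apply, e1, e2, e3, if_neg, if_pos (Finset.insert_erase htA).symm, if_pos]
        · rw [aa_cls' G N y.2 y.1.1.2 t htA, ← hq0]
          have h3 := congrFun (hc.2 (insert t y.1.1.1) t (Or.inl (Finset.mem_insert_self _ _)))
            (cls G N q0 (y.1.1.2.erase t))
          rw [pull_apply, Pi.neg_apply] at h3
          rw [h3]
          ring
        · rw [hq0, mul_inv_rev, inv_inv, inv_mul_cancel_right]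
        · intro h
          rw [h] at htA
          exact Finset.notMem_erase t _ htA
      · intro x _ hx
        by_cases e1 : x.1.1.1 = insert t y.1.1.1
        · have htx : t ∉ x.1.1.2 := by
            have h4 : Disjoint x.1.1.1 x.1.1.2 := x.1.2.2
            intro h5
            exact Finset.disjoint_left.1 h4 (by rw [e1]; exact Finset.mem_insert_self _ _) h5
          rw [if_pos e1, hE x e1]
          rw [if_neg (c := y.1.1.2 = x.1.1.2) (fun h => htx (h ▸ htA))]
          by_cases h6 : y.1.1.2 = insert t x.1.1.2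
          · rw [if_pos h6]
            by_cases h7 : x.2⁻¹ * y.2 = QuotientGroup.mk (gm G (rep G x.1.1.2 * (cox G).simple t))
            · exfalso
              apply hx
              have h8 : x.1.1.2 = y.1.1.2.erase t := by rw [h6, Finset.erase_insert htx]
              rw [hx0]
              refine Prod.ext (Subtype.ext (Prod.ext e1 h8)) ?_
              show x.2 = q0
              rw [hq0, ← h8, ← h7, mul_inv_rev, inv_inv, mul_inv_cancel_left]
            · rw [if_neg h7]
              ring
          · rw [if_neg h6]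
            ring
        · rw [if_neg e1]
      · intro h
        exact absurd (Finset.mem_univ _) h
    · have hd : Disjoint (insert t y.1.1.1) y.1.1.2 := by
        rw [Finset.disjoint_insert_left]
        exact ⟨htA, hy⟩
      obtain ⟨x0, hx0⟩ : ∃ x0 : (CC G N).ι × ((th G).ker ⧸ N),
        x0 = (⟨(insert t y.1.1.1, y.1.1.2), hcl, hd⟩, y.2) := ⟨_, rfl⟩
      rw [Finset.sum_eq_single x0]
      · have e1 : x0.1.1.1 = insert t y.1.1.1 := by rw [hx0]
        have e2 : x0.1.1.2 = y.1.1.2 := by rw [hx0]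
        have e3 : x0.2 = y.2 := by rw [hx0]
        rw [if_pos e1, hE x0 e1, Phi_apply, e1, e2, e3, if_pos rfl, if_pos (inv_mul_cancel _), if_neg]
        · ring
        · intro h
          exact htA (h ▸ Finset.mem_insert_self _ _)
      · intro x _ hx
        by_cases e1 : x.1.1.1 = insert t y.1.1.1
        · rw [if_pos e1, hE x e1]
          rw [if_neg (c := y.1.1.2 = insert t x.1.1.2) (fun h => htA (h ▸ Finset.mem_insert_self _ _))]
          by_cases h6 : y.1.1.2 = x.1.1.2
          · rw [if_pos h6]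
            by_cases h7 : x.2⁻¹ * y.2 = 1
            · exfalso
              apply hx
              rw [hx0]
              refine Prod.ext (Subtype.ext (Prod.ext e1 h6.symm)) ?_
              show x.2 = y.2
              exact inv_mul_eq_one.1 h7
            · rw [if_neg h7]
              ring
          · rw [if_neg h6]
            ring
        · rw [if_neg e1]
      · intro h
        exact absurd (Finset.mem_univ _) h
  · rw [Finset.sum_eq_zero]
    · have h1 : c (insert t y.1.1.1) = 0 := hc.1 _ (fun h => hcl h.1)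
      rw [h1, Pi.zero_apply, mul_zero]
    · intro x _
      rw [if_neg]
      intro h
      apply hcl
      rw [← h]
      exact x.1.2.1

/-- **the boundary maps agree** -/
theorem Phi_bd [Fintype ((th G).ker ⧸ N)] (n : ℕ) (c : Finset V → XX G N → F)
    (hc : c ∈ KK G (pull F (aa G (N.map (th G).ker.subtype))) Set.univ ∅ n) :
    Phi G N F c ᵥ* (CC G N).mat F = Phi G N F (bd F c) := by
  classical
  funext y
  have h1 : (Phi G N F c ᵥ* (CC G N).mat F) y =
      ∑ x : (CC G N).ι × ((th G).ker ⧸ N), Phi G N F c x * (CC G N).mat F x y := rfl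
  have h2 : ∀ x : (CC G N).ι × ((th G).ker ⧸ N), Phi G N F c x * (CC G N).mat F x y =
      ∑ t ∈ (y.1.1.1)ᶜ, if x.1.1.1 = insert t y.1.1.1 then Phi G N F c x * EE0 G N F t x y else 0 := by
    intro x
    rw [mat_apply, swap_sum, Finset.mul_sum]
    refine Finset.sum_congr rfl fun t _ => ?_
    rw [mul_ite, mul_zero]
  rw [h1, Finset.sum_congr rfl fun x _ => h2 x, Finset.sum_comm]
  rw [Finset.sum_congr rfl fun t ht => term G N F n c hc y t (Finset.mem_compl.1 ht)]
  rw [Phi_apply, bd_apply, Finset.sum_apply]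
  refine Finset.sum_congr rfl fun t _ => ?_
  rw [Pi.smul_apply, zsmul_eq_mul]

end bdry

end Pool.Agent.U331.LT
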