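import Pool.Agent.U331.LT.P4B2

/-!
# Project LT, job P4B: the Betti numbers of the quotients of the Davis complex
-/

set_option autoImplicit false

open scoped Matrix

noncomputable section

namespace Pool.Agent.U331.LT

open Module Pool.Agent.W907.SG Pool.Agent.W461.SGN Pool.Agent.W397.SG Pool.Agent.N496.LT
open Pool.Agent.Y132.SI (aa ev ev_mk ev_mul ev_one aa_mk aa_inv aa_comm ET_dim')

section dims

variable {V : Type} [Fintype V] [LinearOrder V] (G : SimpleGraph V) (N : Subgroup (th G).ker) [hN : N.Normal]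
  (F : Type) [Field F] [Fintype ((th G).ker ⧸ N)]

theorem Phi_off (n : ℕ) (c : Finset V → XX G N → F)
    (hc : c ∈ KK G (pull F (aa G (N.map (th G).ker.subtype))) Set.univ ∅ n)
    (x : (CC G N).ι × ((th G).ker ⧸ N)) (hx : (CC G N).deg x.1 ≠ n) : Phi G N F c x = 0 := by
  rw [Phi_apply, hc.1 x.1.1.1 (fun h => hx h.2.2), Pi.zero_apply]

omit [Fintype ((th G).ker ⧸ N)] in
theorem Phi_inj (n : ℕ) (c : Finset V → XX G N → F)
    (hc : c ∈ KK G (pull F (aa G (N.map (th G).ker.subtype))) Set.univ ∅ n)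
    (h : ∀ x, (CC G N).deg x.1 = n → Phi G N F c x = 0) : c = 0 := by
  funext T x
  by_cases hT : G.IsClique (T : Set V) ∧ T.card = n
  · obtain ⟨q, B, rfl⟩ := cls_surj G N x
    show c T (cls G N q B) = 0
    induction B using Finset.strongInduction generalizing q with
    | H B ih =>
      by_cases hd : Disjoint T B
      · exact h (⟨(T, B), hT.1, hd⟩, q) hT.2
      · obtain ⟨t, ht, htB⟩ := Finset.not_disjoint_iff.1 hd
        rw [aa_cls' G N q B t htB]
        have h3 := congrFun (hc.2 T t (Or.inl ht)) (cls G N (q *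
          (QuotientGroup.mk (gm G (rep G (B.erase t) * (cox G).simple t)))⁻¹) (B.erase t))
        rw [pull_apply, Pi.neg_apply] at h3
        rw [h3, ih (B.erase t) (Finset.erase_ssubset htB), neg_zero]
  · have h1 : c T = 0 := hc.1 T (fun h => hT ⟨h.1, h.2.2⟩)
    rw [h1]
    rfl

theorem card_XX [Fintype (XX G N)] :
    Fintype.card (XX G N) = Fintype.card ((th G).ker ⧸ N) * 2 ^ Fintype.card V := by
  rw [← Fintype.card_congr (clsE G N), Fintype.card_prod, Fintype.card_finset]

open Classical in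
theorem cells_card (n : ℕ) :
    Fintype.card {x : (CC G N).ι × ((th G).ker ⧸ N) // (CC G N).deg x.1 = n} =
      ∑ T : Finset V, if G.IsClique (T : Set V) ∧ T.card = n then
        Fintype.card ((th G).ker ⧸ N) * 2 ^ (Fintype.card V - n) else 0 := by
  rw [← Finset.card_univ, Finset.card_eq_sum_card_fiberwise
    (f := fun x : {x : (CC G N).ι × ((th G).ker ⧸ N) // (CC G N).deg x.1 = n} => x.1.1.1.1) (t := Finset.univ)
    (fun x _ => Finset.mem_coe.2 (Finset.mem_univ _))]
  refine Finset.sum_congr rfl fun T _ => ?_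
  by_cases hT : G.IsClique (T : Set V) ∧ T.card = n
  · rw [if_pos hT]
    have h1 : Fintype.card ((th G).ker ⧸ N) * 2 ^ (Fintype.card V - n) =
        ((Tᶜ).powerset ×ˢ (Finset.univ : Finset ((th G).ker ⧸ N))).card := by
      rw [Finset.card_product, Finset.card_powerset, Finset.card_compl, hT.2, Finset.card_univ, mul_comm]
    rw [h1]
    symm
    refine Finset.card_bij (fun p hp => ⟨(⟨(T, p.1), hT.1, ?_⟩, p.2), hT.2⟩) ?_ ?_ ?_
    · have h2 := Finset.mem_powerset.1 (Finset.mem_product.1 hp).1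
      rw [Finset.disjoint_left]
      intro v hv hv2
      exact Finset.mem_compl.1 (h2 hv2) hv
    · intro p hp
      exact Finset.mem_filter.2 ⟨Finset.mem_univ _, rfl⟩
    · intro p hp p' hp' h
      have h3 := congrArg (fun x : {x : (CC G N).ι × ((th G).ker ⧸ N) // (CC G N).deg x.1 = n} => x.1.1.1.2) h
      have h4 := congrArg (fun x : {x : (CC G N).ι × ((th G).ker ⧸ N) // (CC G N).deg x.1 = n} => x.1.2) h
      exact Prod.ext h3 h4
    · rintro ⟨⟨⟨⟨T', A⟩, h5, h6⟩, q⟩, h7⟩ hx
      have h8 : T' = T := (Finset.mem_filter.1 hx).2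
      subst h8
      refine ⟨(A, q), ?_, rfl⟩
      rw [Finset.mem_product]
      refine ⟨?_, Finset.mem_univ _⟩
      rw [Finset.mem_powerset]
      intro v hv
      rw [Finset.mem_compl]
      intro hv2
      exact Finset.disjoint_left.1 h6 hv2 hv
  · rw [if_neg hT, Finset.card_eq_zero, Finset.filter_eq_empty_iff]
    intro x _ hx
    apply hT
    rw [← hx]
    exact ⟨x.1.1.2.1, x.2⟩

theorem KK_finrank [Fintype (XX G N)] (h2 : (2 : F) ≠ 0) (n : ℕ) :
    finrank F (KK G (pull F (aa G (N.map (th G).ker.subtype))) Set.univ ∅ n) =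
      Fintype.card {x : (CC G N).ι × ((th G).ker ⧸ N) // (CC G N).deg x.1 = n} := by
  classical
  rw [KK_dim, cells_card]
  refine Finset.sum_congr rfl fun T _ => ?_
  by_cases hT : G.IsClique (T : Set V) ∧ T.card = n
  · rw [if_pos hT, if_pos hT]
    have h3 := ET_dim' h2 G (aa G (N.map (th G).ker.subtype)) (aa_inv G _) (fun u v h x => aa_comm G _ u v h x)
      (fun S t ht _ => ⟨sgn G N t, sgn_self G N t, fun u hu x => sgn_other G N t u (by
        rintro rfl
        exact ht hu) x⟩) T hT.1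
    rw [card_XX, hT.2] at h3
    have h4 : n ≤ Fintype.card V := hT.2 ▸ Finset.card_le_univ T
    have h5 : (2 : ℕ) ^ Fintype.card V = 2 ^ (Fintype.card V - n) * 2 ^ n := by
      rw [← pow_add, Nat.sub_add_cancel h4]
    rw [h5, ← mul_assoc] at h3
    exact Nat.eq_of_mul_eq_mul_right (by positivity) h3
  · rw [if_neg hT, if_neg hT]

/-- the restriction to the cells of degree `n` -/
def LL (n : ℕ) : KK G (pull F (aa G (N.map (th G).ker.subtype))) Set.univ ∅ n →ₗ[F]
    ({x : (CC G N).ι × ((th G).ker ⧸ N) // (CC G N).deg x.1 = n} → F) where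
  toFun c x := Phi G N F c.1 x.1
  map_add' _ _ := rfl
  map_smul' _ _ := rfl

theorem LL_surj [Fintype (XX G N)] (h2 : (2 : F) ≠ 0) (n : ℕ) : Function.Surjective (LL G N F n) := by
  have h1 : Function.Injective (LL G N F n) := by
    rw [injective_iff_map_eq_zero]
    intro c hc
    apply Subtype.ext
    exact Phi_inj G N F n c.1 c.2 (fun x hx => congrFun hc ⟨x, hx⟩)
  have h3 : finrank F (KK G (pull F (aa G (N.map (th G).ker.subtype))) Set.univ ∅ n) =
      finrank F ({x : (CC G N).ι × ((th G).ker ⧸ N) // (CC G N).deg x.1 = n} → F) := by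
    rw [KK_finrank G N F h2 n, Module.finrank_fintype_fun_eq_card]
  exact (LinearMap.injective_iff_surjective_of_finrank_eq_finrank h3).1 h1

theorem rk_eq [Fintype (XX G N)] (h2 : (2 : F) ≠ 0) (n : ℕ) :
    (CC G N).rk F n = finrank F ((KK G (pull F (aa G (N.map (th G).ker.subtype))) Set.univ ∅ n).map (bd F)) := by
  classical
  unfold GCx.rk
  obtain ⟨M, hM⟩ : ∃ M : Matrix {x : (CC G N).ι × ((th G).ker ⧸ N) // (CC G N).deg x.1 = n}
      ((CC G N).ι × ((th G).ker ⧸ N)) F, M = ((CC G N).mat F).submatrix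
        (fun x : {x : (CC G N).ι × ((th G).ker ⧸ N) // (CC G N).deg x.1 = n} => x.1) id := ⟨_, rfl⟩
  rw [← hM, ← Matrix.rank_transpose]
  unfold Matrix.rank
  have h1 : ∀ c : KK G (pull F (aa G (N.map (th G).ker.subtype))) Set.univ ∅ n,
      Mᵀ.mulVecLin (LL G N F n c) = Phi G N F (bd F c.1) := by
    intro c
    rw [← Phi_bd G N F n c.1 c.2, Matrix.mulVecLin_apply]
    funext y
    show ∑ x : {x : (CC G N).ι × ((th G).ker ⧸ N) // (CC G N).deg x.1 = n}, Mᵀ y x * Phi G N F c.1 x.1 =
      ∑ x : (CC G N).ι × ((th G).ker ⧸ N), Phi G N F c.1 x * (CC G N).mat F x y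
    have h3 : ∀ x : {x : (CC G N).ι × ((th G).ker ⧸ N) // (CC G N).deg x.1 = n},
        Mᵀ y x * Phi G N F c.1 x.1 = Phi G N F c.1 x.1 * (CC G N).mat F x.1 y := by
      intro x
      rw [hM, Matrix.transpose_apply, Matrix.submatrix_apply, id, mul_comm]
    rw [Finset.sum_congr rfl fun x _ => h3 x]
    refine sum_deg (fun x : (CC G N).ι × ((th G).ker ⧸ N) => (CC G N).deg x.1) n
      (fun x => Phi G N F c.1 x * (CC G N).mat F x y) (fun x hx => ?_)
    rw [Phi_off G N F n c.1 c.2 x hx, zero_mul]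
  have h3 : LinearMap.range Mᵀ.mulVecLin =
      ((KK G (pull F (aa G (N.map (th G).ker.subtype))) Set.univ ∅ n).map (bd F)).map (Phi G N F) := by
    ext v
    rw [LinearMap.mem_range, Submodule.mem_map]
    constructor
    · rintro ⟨u, rfl⟩
      obtain ⟨c, rfl⟩ := LL_surj G N F h2 n u
      exact ⟨bd F c.1, Submodule.mem_map_of_mem c.2, (h1 c).symm⟩
    · rintro ⟨_, ⟨c, hc, rfl⟩, rfl⟩
      exact ⟨LL G N F n ⟨c, hc⟩, h1 ⟨c, hc⟩⟩
  rw [h3]
  obtain ⟨P, hP⟩ : ∃ P : Submodule F (Finset V → XX G N → F),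
    P = (KK G (pull F (aa G (N.map (th G).ker.subtype))) Set.univ ∅ n).map (bd F) := ⟨_, rfl⟩
  rw [← hP]
  have hinj : Function.Injective ((Phi G N F).domRestrict P) := by
    rw [injective_iff_map_eq_zero]
    rintro ⟨b, hb⟩ h
    apply Subtype.ext
    have hb' := hb
    rw [hP] at hb'
    obtain ⟨c, hc, rfl⟩ := hb'
    show bd F c = 0
    have h4 : Phi G N F (bd F c) = 0 := h
    cases n with
    | zero =>
      funext T
      rw [bd_apply]
      refine Finset.sum_eq_zero fun v _ => ?_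
      rw [hc.1 (insert v T), smul_zero]
      rintro ⟨_, _, h3⟩
      rw [Finset.card_eq_zero] at h3
      exact Finset.insert_ne_empty v T h3
    | succ m =>
      exact Phi_inj G N F m _ (bd_mem_KK hc) (fun x _ => congrFun h4 x)
  have h5 := LinearMap.finrank_range_of_inj hinj
  rw [LinearMap.range_domRestrict] at h5
  exact h5

end dims

/-- **job P4B** -/
theorem p4b : P4B := by
  intro V F _ _ _ G N hN _ _ n h2
  have h1 := rk_eq G N F h2 n
  have h3 := rk_eq G N F h2 (n + 1)
  have h4 := KK_finrank G N F h2 n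
  have h5 := rank_null (bd F) (KK G (pull F (aa G (N.map (th G).ker.subtype))) Set.univ ∅ n)
  have h6 : Fintype.card {x : (CC G N).ι × ((th G).ker ⧸ N) // (CC G N).deg x.1 = n} =
      Fintype.card {i : (CC G N).ι // (CC G N).deg i = n} * Fintype.card ((th G).ker ⧸ N) := by
    rw [← Fintype.card_prod]
    exact Fintype.card_congr (Equiv.prodSubtypeFstEquivSubtypeProd (p := fun i => (CC G N).deg i = n))
  have h7 := Submodule.finrank_mono (BB_le_ZZ G (pull F (aa G (N.map (th G).ker.subtype))) Set.univ ∅ n)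
  unfold GCx.betti beta
  rw [Nat.cast_sub h7]
  rw [h1, h3]
  change _ = ((finrank F (KK G (pull F (aa G (N.map (th G).ker.subtype))) Set.univ ∅ n ⊓ LinearMap.ker (bd F) :
    Submodule F (Finset V → XX G N → F)) : ℕ) : ℤ) -
    (finrank F ((KK G (pull F (aa G (N.map (th G).ker.subtype))) Set.univ ∅ (n + 1)).map (bd F)) : ℕ)
  have h8 : ((Fintype.card {i : (CC G N).ι // (CC G N).deg i = n} : ℤ) * Fintype.card ((th G).ker ⧸ N)) =
      (finrank F (KK G (pull F (aa G (N.map (th G).ker.subtype))) Set.univ ∅ n) : ℤ) := by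
    rw [h4, h6]
    push_cast
    rfl
  rw [h8, ← h5]
  push_cast
  ring

end Pool.Agent.U331.LT
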